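import Pool.Agent.UMG.StmtsB

/-!
# Squad UMG, row EDG (MP_34c13a_lc, block B): matchings of bundles of all sizes
-/

set_option autoImplicit false

namespace Pool.Agent.UMG.B.H50

open Finset Pool.Agent.UMG Pool.Agent.UMG.B

/-- tuples of the length `M + 1` -/
theorem snocD (M : ℕ) (f : ℕ → ℕ) (N : ℕ) (hN : f M = N) (L L1 L2 : List (ℕ × ℕ × ℕ))
    (h1 : ∀ j < M, L.filter (fun b => bsz b = j + 1) = L1.filter (fun b => bsz b = j + 1))
    (h2 : L.filter (fun b => bsz b = M + 1) = L2) :
    EqD (fun z : ((j : Fin M) → Fin (f j)) × Fin N =>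
        Qc (edL M L1 (ext z.1)) + Qc (mt (M + 1) L2 z.2))
      (fun x : (j : Fin (M + 1)) → Fin (f j) => Qc (edL (M + 1) L (ext x))) := by
  subst hN
  refine ⟨(Equiv.prodComm _ _).trans (Fin.snocEquiv (fun j : Fin (M + 1) => Fin (f j))), ?_⟩
  rintro ⟨x, y⟩
  set w : (j : Fin (M + 1)) → Fin (f j) :=
    ((Equiv.prodComm _ _).trans (Fin.snocEquiv (fun j : Fin (M + 1) => Fin (f j)))) (x, y) with hw
  have hw1 : ∀ j : Fin M, w j.castSucc = x j := by
    intro j
    rw [hw]
    simp [Fin.snocEquiv]
  have hw2 : w (Fin.last M) = y := by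
    rw [hw]
    simp [Fin.snocEquiv]
  have h3 : edL (M + 1) L (ext w) = edL M L1 (ext x) ++ mt (M + 1) L2 y := by
    rw [edL, List.range_succ, List.flatMap_append, List.flatMap_singleton, edL, h2]
    have h4 : ext w (M + 1) = (y : ℕ) := by
      have : M + 1 - 1 < M + 1 := by omega
      rw [ext, dif_pos this, ← hw2]
      rfl
    rw [h4]
    congr 1
    refine List.flatMap_congr fun j hj => ?_
    have hj' : j < M := List.mem_range.1 hj
    have h5 : ext w (j + 1) = ext x (j + 1) := by
      have h6 : j + 1 - 1 < M + 1 := by omega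
      have h7 : j + 1 - 1 < M := by omega
      rw [ext, dif_pos h6, ext, dif_pos h7, ← hw1]
      rfl
    rw [h5, h1 j hj']
  change Qc (edL (M + 1) L (ext w)) = Qc (edL M L1 (ext x)) + Qc (mt (M + 1) L2 y)
  rw [h3, Qc_append]

/-- the general form of the row -/
theorem edgGen (hmts : MtsStmt) (hspm : SpmStmt) (hper : PerStmt) (hprm : PrmStmt) :
    ∀ (M : ℕ) (L : List (ℕ × ℕ × ℕ)) (f : ℕ → ℕ), (∀ b ∈ L, 1 ≤ bsz b ∧ bsz b ≤ M) →
      (∀ j < M, f j = F (j + 1) (L.countP (fun b => bsz b = j + 1))) →
      EqD (fun m : Mt (gB L) => QQ (nuB L) m.1)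
        (fun x : (j : Fin M) → Fin (f j) => Qc (edL M L (ext x))) := by
  intro M
  induction M with
  | zero =>
    intro L f hL _
    have hnil : L = [] := by
      rcases L with _ | ⟨b, L⟩
      · rfl
      · have := hL b List.mem_cons_self
        omega
    subst hnil
    have : IsEmpty (HB []) := inferInstanceAs (IsEmpty Empty)
    refine ⟨⟨fun _ j => j.elim0, fun _ => ⟨id, fun _ => rfl, fun h => isEmptyElim h,
      fun h => isEmptyElim h⟩, fun m => ?_, fun x => ?_⟩, ?_⟩
    · exact Subtype.ext (funext fun h => isEmptyElim h)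
    · exact funext fun j => j.elim0
    · intro m
      funext v w
      have h1 : QQ (nuB []) m.1 v w = 0 := by
        unfold QQ
        have : IsEmpty {h // nuB [] h = v ∧ nuB [] (m.1 h) = w} := ⟨fun h => isEmptyElim h.1⟩
        exact Nat.card_of_isEmpty
      change Qc (edL 0 [] _) v w = QQ (nuB []) m.1 v w
      rw [h1]
      simp [edL, Qc]
  | succ M ih =>
    intro L f hL hf
    set L1 := L.filter (fun b => bsz b ≤ M) with hL1
    set L2 := L.filter (fun b => bsz b = M + 1) with hL2
    have hfil : ∀ j < M, L.filter (fun b => bsz b = j + 1) = L1.filter (fun b => bsz b = j + 1) := by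
      intro j hj
      rw [hL1, List.filter_filter]
      refine List.filter_congr fun b _ => ?_
      by_cases h : bsz b = j + 1
      · have : bsz b ≤ M := by omega
        simp [h, hj]
      · simp [h]
    have hperm : L.Perm (L1 ++ L2) := by
      have h1 := List.filter_append_perm (fun b => decide (bsz b ≤ M)) L
      have h2 : L.filter (fun b => !decide (bsz b ≤ M)) = L2 := by
        rw [hL2]
        refine List.filter_congr fun b hb => ?_
        have h3 := hL b hb
        by_cases h : bsz b ≤ M
        · have : ¬ bsz b = M + 1 := by omega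
          simp [h, this]
        · have : bsz b = M + 1 := by omega
          simp [this]
      rw [h2] at h1
      exact h1.symm
    have e1 : EqD (fun m : Mt (gB L) => QQ (nuB L) m.1)
        (fun m : Mt (Equiv.sumCongr (gB L1) (gB L2)) => QQ (Sum.elim (nuB L1) (nuB L2)) m.1) :=
      ((hprm.1 _ _ hperm).trans (hprm.2 L1 L2)).eqD
    have e2 := hspm (HB L1) (HB L2) (gB L1) (gB L2) (nuB L1) (nuB L2) (by
      intro a b hab
      obtain ⟨c, hc, hc'⟩ := hper L1 a
      obtain ⟨c2, hc2, hc2'⟩ := hper L2 b
      rw [hc', hc2'] at hab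
      rw [hL1, List.mem_filter] at hc
      rw [hL2, List.mem_filter] at hc2
      have h5 := of_decide_eq_true hc.2
      have h6 := of_decide_eq_true hc2.2
      omega)
    have e3 : EqD (fun m : Mt (gB L1) => QQ (nuB L1) m.1)
        (fun x : (j : Fin M) → Fin (f j) => Qc (edL M L1 (ext x))) := by
      refine ih L1 f (fun b hb => ?_) fun j hj => ?_
      · rw [hL1, List.mem_filter] at hb
        exact ⟨(hL b hb.1).1, of_decide_eq_true hb.2⟩
      · rw [hf j (by omega), List.countP_eq_length_filter, List.countP_eq_length_filter, hfil j hj]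
    have e4 := hmts (M + 1) L2 (by omega) (by
      intro b hb
      rw [hL2, List.mem_filter] at hb
      exact of_decide_eq_true hb.2)
    have e5 := snocD M f (F (M + 1) L2.length)
      (by rw [hf M (by omega), List.countP_eq_length_filter]) L L1 L2 hfil rfl
    exact (e1.trans e2).trans ((e3.add e4).trans e5)

/-- **EDG** -/
theorem edg (hmts : MtsStmt) (hspm : SpmStmt) (hper : PerStmt) (hprm : PrmStmt) : EdgStmt :=
  fun M L hL => edgGen hmts hspm hper hprm M L (fun j => F (j + 1) (L.countP (fun b => bsz b = j + 1)))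
    hL fun _ _ => rfl

end Pool.Agent.UMG.B.H50
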