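import Pool.Agent.UMG.StmtsD

/-!
# Squad UMG, row CDV (MP_34c13a_lc): properties of the codes of a degree sequence
-/

set_option autoImplicit false

namespace Pool.Agent.UMG.D.H50

open Finset Pool.Agent.UMG

theorem bsum : ∀ (c : Code) (d : List ℕ) (v : ℕ), Cd d c → ((bund v c).map bsz).sum = d.sum := by
  intro c
  induction c with
  | nil =>
    intro d v h
    have hd : d = [] := h
    subst hd
    simp [bund]
  | cons a c ih =>
    obtain ⟨l, p⟩ := a
    intro d v h
    obtain ⟨k, t, rfl, hp, hl, hi, hc⟩ := h
    have h1 : (List.map bsz (p.map fun i => (v, l, i))).sum = l * p.sum := by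
      rw [List.map_map]
      have : (bsz ∘ fun i => (v, l, i)) = fun i => l * i := rfl
      rw [this, List.sum_map_mul_left]
      simp
    rw [bund, List.map_append, List.sum_append, h1, ih t (v + l) hc, hp, List.sum_append, List.sum_replicate,
      smul_eq_mul]

theorem bpos : ∀ (c : Code) (d : List ℕ) (v : ℕ), Cd d c → ∀ b ∈ bund v c, 1 ≤ bsz b := by
  intro c
  induction c with
  | nil =>
    intro d v h b hb
    simp [bund] at hb
  | cons a c ih =>
    obtain ⟨l, p⟩ := a
    intro d v h b hb
    obtain ⟨k, t, rfl, hp, hl, hi, hc⟩ := h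
    rw [bund, List.mem_append] at hb
    rcases hb with hb | hb
    · rw [List.mem_map] at hb
      obtain ⟨i, hip, rfl⟩ := hb
      exact Nat.mul_pos hl (hi i hip)
    · exact ih t (v + l) hc b hb

theorem blen : ∀ (c : Code) (d : List ℕ), Cd d c → (c.map Prod.fst).sum = d.length := by
  intro c
  induction c with
  | nil =>
    intro d h
    have hd : d = [] := h
    subst hd
    simp
  | cons a c ih =>
    obtain ⟨l, p⟩ := a
    intro d h
    obtain ⟨k, t, rfl, hp, hl, hi, hc⟩ := h
    rw [List.map_cons, List.sum_cons, ih t hc, List.length_append, List.length_replicate]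

theorem cntsum (J : ℕ) : ∀ L : List (ℕ × ℕ × ℕ), (∀ b ∈ L, 1 ≤ bsz b ∧ bsz b ≤ J) →
    ∑ j ∈ range J, (j + 1) * L.countP (fun b => bsz b = j + 1) = (L.map bsz).sum := by
  intro L
  induction L with
  | nil => intro _; simp
  | cons a L ih =>
    intro h
    have h1 := ih fun b hb => h b (List.mem_cons_of_mem _ hb)
    obtain ⟨h2, h3⟩ := h a List.mem_cons_self
    rw [List.map_cons, List.sum_cons, ← h1]
    have h4 : ∀ j ∈ range J, (j + 1) * (a :: L).countP (fun b => bsz b = j + 1) =
        (if j = bsz a - 1 then bsz a else 0) + (j + 1) * L.countP (fun b => bsz b = j + 1) := by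
      intro j _
      rw [List.countP_cons]
      by_cases hj : j = bsz a - 1
      · have h5 : bsz a = j + 1 := by omega
        rw [if_pos hj]
        simp only [h5, decide_true, if_true]
        ring
      · have h5 : ¬ bsz a = j + 1 := by omega
        rw [if_neg hj]
        simp only [h5, decide_false, Bool.false_eq_true, if_false]
        ring
    rw [Finset.sum_congr rfl h4, Finset.sum_add_distrib, Finset.sum_ite_eq', if_pos (mem_range.2 (by omega))]

/-- **CDV** -/
theorem cdv : CdvStmt := by
  intro d c h
  have hb : ∀ v, ∀ b ∈ bund v c, 1 ≤ bsz b ∧ bsz b ≤ d.sum := by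
    intro v b hb
    refine ⟨bpos c d v h b hb, ?_⟩
    rw [← bsum c d v h]
    exact List.le_sum_of_mem (List.mem_map_of_mem hb)
  have h2 : ∀ J, d.sum ≤ J → ∑ j ∈ range J, (j + 1) * cnt c (j + 1) = d.sum := by
    intro J hJ
    have := cntsum J (bund 0 c) fun b hb' => ⟨(hb 0 b hb').1, (hb 0 b hb').2.trans hJ⟩
    rw [bsum c d 0 h] at this
    exact this
  refine ⟨hb, h2, ?_, ?_, blen c d h⟩
  · intro j hj
    have h3 := h2 (max j d.sum) (le_max_right _ _)
    rw [← h3]
    have h4 := Finset.single_le_sum (f := fun i => (i + 1) * cnt c (i + 1)) (s := range (max j d.sum))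
      (fun i _ => Nat.zero_le _) (mem_range.2 (by omega : j - 1 < max j d.sum))
    simp only [Nat.sub_add_cancel hj] at h4
    exact h4
  · intro j hj
    rw [cnt, List.countP_eq_zero]
    intro b hb'
    have := (hb 0 b hb').2
    simp only [decide_eq_true_eq]
    omega

end Pool.Agent.UMG.D.H50
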