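import Pool.Agent.UMG.StmtsA

/-! Row FUP of squad UMG (MP_34c13a_lc), block A: `F j c ≤ Fh M j c`. -/

set_option autoImplicit false

namespace Pool.Agent.UMG.A.H50

open Finset Pool.Agent.UMG

/-- the comparison product -/
noncomputable def pc (j c : ℕ) : ℝ :=
  ∏ i ∈ range c, (Real.sqrt ((j : ℝ) * ((i : ℝ) + 1)) + (if 2 ∣ j then 1 / 2 else 0))

theorem pc_succ (j c : ℕ) : pc j (c + 1) =
    pc j c * (Real.sqrt ((j : ℝ) * ((c : ℝ) + 1)) + (if 2 ∣ j then 1 / 2 else 0)) := by
  unfold pc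
  rw [prod_range_succ]

theorem pc_nonneg (j c : ℕ) : 0 ≤ pc j c := by
  unfold pc
  apply prod_nonneg
  intro i _
  split_ifs <;> positivity

theorem pc_le (hsqb : SqbStmt) (M j c : ℕ) : pc j c ≤ Fh M j c := by
  unfold pc Fh
  apply prod_le_prod
  · intro i _
    split_ifs <;> positivity
  · intro i _
    have h := (hsqb M j (i + 1)).1
    have e : ((j * (i + 1 : ℕ) : ℝ)) = (j : ℝ) * ((i : ℝ) + 1) := by push_cast; ring
    rw [e] at h
    exact h.le

theorem fr_le (j : ℕ) (hj : 1 ≤ j) : ∀ c : ℕ, Fr j c ≤ pc j c ∧ Fr j (c + 1) ≤ pc j (c + 1) := by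
  have hj' : (1 : ℝ) ≤ j := by exact_mod_cast hj
  intro c
  induction c with
  | zero =>
    refine ⟨by simp [Fr, F, pc], ?_⟩
    rw [pc_succ]
    have e0 : pc j 0 = 1 := by simp [pc]
    rw [e0, one_mul]
    unfold Fr
    simp only [F, Nat.cast_zero, zero_add, mul_one]
    by_cases h : 2 ∣ j
    · rw [if_pos h, if_pos h]
      have : 1 ≤ Real.sqrt (j : ℝ) := Real.one_le_sqrt.2 hj'
      push_cast
      linarith
    · rw [if_neg h, if_neg h]
      push_cast
      positivity
  | succ c ih =>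
    refine ⟨ih.2, ?_⟩
    obtain ⟨h1, h2⟩ := ih
    have hF : Fr j (c + 1 + 1) = (if 2 ∣ j then Fr j (c + 1) else 0) +
        ((c : ℝ) + 1) * j * Fr j c := by
      unfold Fr
      simp only [F]
      split_ifs <;> push_cast <;> ring
    set u : ℝ := Real.sqrt ((j : ℝ) * ((c : ℝ) + 1)) with hu
    set v : ℝ := Real.sqrt ((j : ℝ) * (((c + 1 : ℕ) : ℝ) + 1)) with hv
    have hu0 : 0 ≤ u := Real.sqrt_nonneg _
    have hv0 : 0 ≤ v := Real.sqrt_nonneg _
    have hu2 : u ^ 2 = (j : ℝ) * ((c : ℝ) + 1) := Real.sq_sqrt (by positivity)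
    have hv2 : v ^ 2 = (j : ℝ) * ((c : ℝ) + 2) := by
      rw [hv, Real.sq_sqrt (by positivity)]
      push_cast
      ring
    have huv : u ≤ v := by
      apply Real.sqrt_le_sqrt
      push_cast
      nlinarith
    have hu1 : 1 ≤ u := by
      rw [hu]
      apply Real.one_le_sqrt.2
      have hc : (0 : ℝ) ≤ c := Nat.cast_nonneg c
      nlinarith
    have hp0 := pc_nonneg j c
    rw [hF, pc_succ, pc_succ, ← hu, ← hv]
    by_cases h : 2 ∣ j
    · rw [if_pos h, if_pos h]
      rw [pc_succ, ← hu, if_pos h] at h2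
      -- u (v - u) ≥ 1/4
      have hv4 : v ≤ 2 * u := by
        rw [hv, hu, show (2 : ℝ) = Real.sqrt 4 by
          rw [show (4 : ℝ) = 2 ^ 2 by norm_num, Real.sqrt_sq (by norm_num)],
          ← Real.sqrt_mul (by norm_num)]
        apply Real.sqrt_le_sqrt
        push_cast
        have hc : (0 : ℝ) ≤ c := Nat.cast_nonneg c
        nlinarith
      have hkey : u * (v - u) ≥ 1 / 4 := by
        have h3 : (v - u) * (v + u) = j := by
          have : (v - u) * (v + u) = v ^ 2 - u ^ 2 := by ring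
          rw [this, hv2, hu2]
          ring
        nlinarith
      have h5 : ((c : ℝ) + 1) * j * Fr j c ≤ u ^ 2 * pc j c := by
        rw [hu2]
        calc ((c : ℝ) + 1) * j * Fr j c ≤ ((c : ℝ) + 1) * j * pc j c :=
              mul_le_mul_of_nonneg_left h1 (by positivity)
          _ = (j : ℝ) * ((c : ℝ) + 1) * pc j c := by ring
      have h6 : (u + 1 / 2) + u ^ 2 ≤ (u + 1 / 2) * (v + 1 / 2) := by
        nlinarith
      have h7 : pc j c * ((u + 1 / 2) + u ^ 2) ≤ pc j c * ((u + 1 / 2) * (v + 1 / 2)) :=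
        mul_le_mul_of_nonneg_left h6 hp0
      nlinarith
    · rw [if_neg h, if_neg h]
      have h5 : ((c : ℝ) + 1) * j * Fr j c ≤ u ^ 2 * pc j c := by
        rw [hu2]
        calc ((c : ℝ) + 1) * j * Fr j c ≤ ((c : ℝ) + 1) * j * pc j c :=
              mul_le_mul_of_nonneg_left h1 (by positivity)
          _ = (j : ℝ) * ((c : ℝ) + 1) * pc j c := by ring
      have h6 : u ^ 2 * pc j c ≤ u * v * pc j c := by
        apply mul_le_mul_of_nonneg_right _ hp0
        nlinarith
      linarith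

/-- ROW FUP -/
theorem fup (hsqb : SqbStmt) : FupStmt := by
  intro M j c hj
  exact (fr_le j hj c).1.trans (pc_le hsqb M j c)

end Pool.Agent.UMG.A.H50
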