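import Pool.Agent.UMG.StmtsA

/-! Row QKS of squad UMG (MP_34c13a_lc), block A: the big degrees contribute little. -/

set_option autoImplicit false

namespace Pool.Agent.UMG.A.H50

open Finset Pool.Agent.UMG

/-- ROW QKS -/
theorem qks : QksStmt := by
  intro η K hη hη2
  obtain ⟨L, hL⟩ := exists_nat_ge (8 / η)
  obtain ⟨B, hB⟩ : ∃ B : ℝ, B = ((K : ℝ) + 1) * Real.exp 1 * Real.exp 1 := ⟨_, rfl⟩
  have he1 : (1 : ℝ) ≤ Real.exp 1 := Real.one_le_exp (by norm_num)
  have hK1 : (1 : ℝ) ≤ (K : ℝ) + 1 := by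
    have : (0 : ℝ) ≤ K := Nat.cast_nonneg K
    linarith
  have hA1 : (1 : ℝ) ≤ ((K : ℝ) + 1) * Real.exp 1 := one_le_mul_of_one_le_of_one_le hK1 he1
  have hB1 : 1 ≤ B := by
    rw [hB]
    exact one_le_mul_of_one_le_of_one_le hA1 he1
  have hBk : ∀ k : ℕ, B ^ k = (((K : ℝ) + 1) * Real.exp 1) ^ k * Real.exp 1 ^ k := by
    intro k
    rw [hB, mul_pow _ (Real.exp 1) k]
  have heB : Real.exp 1 ≤ B := by
    rw [hB]
    exact le_mul_of_one_le_left (by positivity) hA1
  obtain ⟨D, hD⟩ : ∃ D : ℝ, D = B ^ L * (L.factorial : ℝ) := ⟨_, rfl⟩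
  have hD1 : 0 < D := by
    rw [hD]
    positivity
  have hL0 : 0 < L := by
    have h1 : (0 : ℝ) < 8 / η := by positivity
    have h2 : (0 : ℝ) < L := h1.trans_le hL
    exact_mod_cast h2
  have hL1 : (1 : ℝ) ≤ L := by exact_mod_cast hL0
  have h1 : ∀ᶠ M : ℕ in Filter.atTop, 2 * L * D + 1 ≤ Real.sqrt (M : ℝ) :=
    (Real.tendsto_sqrt_atTop.comp tendsto_natCast_atTop_atTop).eventually_ge_atTop _
  have h2 : ∀ᶠ M : ℕ in Filter.atTop, B ≤ (M : ℝ) ^ (η / 2) :=
    ((tendsto_rpow_atTop (by positivity)).comp tendsto_natCast_atTop_atTop).eventually_ge_atTop _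
  obtain ⟨M0, hM0⟩ := Filter.eventually_atTop.1 (h1.and h2)
  refine ⟨M0 + 2, fun M hM => ?_⟩
  obtain ⟨hs, hBM⟩ := hM0 M (by omega)
  have hM2 : (2 : ℝ) ≤ M := by exact_mod_cast (by omega : 2 ≤ M)
  have hMpos : (0 : ℝ) < M := by linarith
  set s : ℝ := Real.sqrt (M : ℝ) with hsdef
  have hss : s ^ 2 = M := Real.sq_sqrt hMpos.le
  have hLD : 0 < L * D := by positivity
  have hs1 : 1 ≤ s := by linarith
  have hs0 : 0 < s := by linarith
  have hLDs : L * D / s ≤ 1 / 2 := by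
    rw [div_le_iff₀ hs0]
    linarith
  have hDs : D / s ≤ 1 / 2 := by
    refine le_trans ?_ hLDs
    apply div_le_div_of_nonneg_right _ hs0.le
    exact le_mul_of_one_le_left hD1.le hL1
  have hbk : ∀ (b : ℝ) (k : ℕ), 0 ≤ b → b ≤ B → k < L → b ^ k * (k.factorial : ℝ) ≤ D := by
    intro b k hb0 hb hk
    have e1 : b ^ k ≤ B ^ L :=
      (pow_le_pow_left₀ hb0 hb k).trans (pow_le_pow_right₀ hB1 hk.le)
    have e2 : (k.factorial : ℝ) ≤ (L.factorial : ℝ) := by
      exact_mod_cast Nat.factorial_le hk.le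
    rw [hD]
    exact mul_le_mul e1 e2 (by positivity) (by positivity)
  -- the terms `k < L`
  have hsm : ∀ (b : ℝ) (k p : ℕ), 0 ≤ b → b ≤ B → k < L → p + 1 ≤ k →
      b ^ k * (k.factorial : ℝ) * s ^ p / s ^ k ≤ D / s := by
    intro b k p hb0 hb hk hpk
    have e1 : s ^ p / s ^ k ≤ 1 / s := by
      rw [div_le_div_iff₀ (by positivity) hs0, one_mul, ← pow_succ]
      exact pow_le_pow_right₀ hs1 hpk
    calc b ^ k * (k.factorial : ℝ) * s ^ p / s ^ k
        = b ^ k * (k.factorial : ℝ) * (s ^ p / s ^ k) := by ring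
      _ ≤ D * (1 / s) := mul_le_mul (hbk b k hb0 hb hk) e1 (by positivity) hD1.le
      _ = D / s := by ring
  have hf : ∀ k : ℕ, (((K : ℝ) + 1) * Real.exp 1) ^ k * M * qk M k =
      B ^ k * (k.factorial : ℝ) * s ^ 4 / s ^ k := by
    intro k
    unfold qk
    rw [← hsdef, hBk, show s ^ 4 = (s ^ 2) ^ 2 by ring, hss]
    ring
  have hq : ∀ k : ℕ, qk M k = Real.exp 1 ^ k * (k.factorial : ℝ) * s ^ 2 / s ^ k := by
    intro k
    unfold qk
    rw [← hsdef, hss]
  -- the terms `k ≥ L`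
  have hbig : ∀ k : ℕ, L ≤ k → (k : ℝ) ≤ (M : ℝ) ^ (1 / 2 - η) →
      B ^ k * (k.factorial : ℝ) * s ^ 4 / s ^ k ≤ 1 / (M : ℝ) ^ 2 := by
    intro k hk hkM
    have e1 : (k.factorial : ℝ) ≤ ((M : ℝ) ^ (1 / 2 - η)) ^ k := by
      have : (k.factorial : ℝ) ≤ (k : ℝ) ^ k := by exact_mod_cast Nat.factorial_le_pow k
      exact this.trans (pow_le_pow_left₀ (by positivity) hkM k)
    have e2 : B ^ k * (k.factorial : ℝ) / s ^ k ≤
        (B * (M : ℝ) ^ (1 / 2 - η) / s) ^ k := by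
      rw [div_pow, mul_pow]
      apply div_le_div_of_nonneg_right _ (by positivity)
      exact mul_le_mul_of_nonneg_left e1 (by positivity)
    have e3 : B * (M : ℝ) ^ (1 / 2 - η) / s ≤ (M : ℝ) ^ (-(η / 2)) := by
      have hsr : s = (M : ℝ) ^ (1 / 2 : ℝ) := by
        rw [hsdef, Real.sqrt_eq_rpow]
      rw [div_le_iff₀ hs0, hsr, ← Real.rpow_add hMpos]
      calc B * (M : ℝ) ^ (1 / 2 - η) ≤ (M : ℝ) ^ (η / 2) * (M : ℝ) ^ (1 / 2 - η) :=
            mul_le_mul_of_nonneg_right hBM (by positivity)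
        _ = (M : ℝ) ^ (-(η / 2) + 1 / 2) := by
            rw [← Real.rpow_add hMpos]
            congr 1
            ring
    have e4 : (B * (M : ℝ) ^ (1 / 2 - η) / s) ^ k ≤ ((M : ℝ) ^ (-(η / 2))) ^ L := by
      have f1 : (B * (M : ℝ) ^ (1 / 2 - η) / s) ^ k ≤ ((M : ℝ) ^ (-(η / 2))) ^ k :=
        pow_le_pow_left₀ (by positivity) e3 k
      have f2 : ((M : ℝ) ^ (-(η / 2))) ^ k ≤ ((M : ℝ) ^ (-(η / 2))) ^ L := by
        apply pow_le_pow_of_le_one (by positivity) _ hk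
        exact Real.rpow_le_one_of_one_le_of_nonpos (by linarith) (by linarith)
      exact f1.trans f2
    have e5 : ((M : ℝ) ^ (-(η / 2))) ^ L ≤ (M : ℝ) ^ (-(4 : ℝ)) := by
      rw [← Real.rpow_natCast, ← Real.rpow_mul hMpos.le]
      apply Real.rpow_le_rpow_of_exponent_le (by linarith)
      rw [div_le_iff₀ hη] at hL
      nlinarith
    have e6 : (M : ℝ) ^ (-(4 : ℝ)) = 1 / (M : ℝ) ^ 4 := by
      rw [Real.rpow_neg hMpos.le, one_div]
      congr 1
      exact_mod_cast Real.rpow_natCast (M : ℝ) 4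
    calc B ^ k * (k.factorial : ℝ) * s ^ 4 / s ^ k
        = (B ^ k * (k.factorial : ℝ) / s ^ k) * (M : ℝ) ^ 2 := by
          rw [← hss]
          ring
      _ ≤ (1 / (M : ℝ) ^ 4) * (M : ℝ) ^ 2 := by
          apply mul_le_mul_of_nonneg_right _ (by positivity)
          rw [← e6]
          exact e2.trans (e4.trans e5)
      _ = 1 / (M : ℝ) ^ 2 := by
          field_simp
  have hMM : 1 / (M : ℝ) ^ 2 ≤ 1 / 2 := by
    apply one_div_le_one_div_of_le (by norm_num)
    nlinarith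
  refine ⟨?_, ?_⟩
  · intro k hk hkM
    rcases Nat.lt_or_ge k L with h | h
    · rw [hq]
      exact (hsm _ k 2 (by positivity) heB h hk).trans hDs
    · have h3 := hbig k h hkM
      have h4 : qk M k ≤ (((K : ℝ) + 1) * Real.exp 1) ^ k * M * qk M k := by
        have h5 : 0 ≤ qk M k := by
          rw [hq]
          positivity
        apply le_mul_of_one_le_left h5
        exact one_le_mul_of_one_le_of_one_le (one_le_pow₀ hA1) (by linarith)
      rw [hf] at h4
      exact h4.trans (h3.trans hMM)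
  · have hterm : ∀ k ∈ (Icc 5 M).filter (fun k : ℕ => (k : ℝ) ≤ (M : ℝ) ^ (1 / 2 - η)),
        (((K : ℝ) + 1) * Real.exp 1) ^ k * M * qk M k ≤
          (if k < L then D / s else 0) + 1 / (M : ℝ) ^ 2 := by
      intro k hk
      rw [mem_filter, mem_Icc] at hk
      rw [hf]
      split_ifs with h
      · have := hsm B k 4 (by positivity) le_rfl h hk.1.1
        have h0 : 0 ≤ 1 / (M : ℝ) ^ 2 := by positivity
        linarith
      · rw [zero_add]
        exact hbig k (by omega) hk.2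
    refine (sum_le_sum hterm).trans ?_
    rw [sum_add_distrib, sum_const, ← sum_filter, sum_const, nsmul_eq_mul, nsmul_eq_mul]
    have c1 : ((((Icc 5 M).filter (fun k : ℕ => (k : ℝ) ≤ (M : ℝ) ^ (1 / 2 - η))).filter
        (fun k => k < L)).card : ℝ) ≤ L := by
      have : (((Icc 5 M).filter (fun k : ℕ => (k : ℝ) ≤ (M : ℝ) ^ (1 / 2 - η))).filter
        (fun k => k < L)).card ≤ (range L).card := by
        apply card_le_card
        intro k hk
        rw [mem_filter] at hk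
        exact mem_range.2 hk.2
      rw [card_range] at this
      exact_mod_cast this
    have c2 : (((Icc 5 M).filter (fun k : ℕ => (k : ℝ) ≤ (M : ℝ) ^ (1 / 2 - η))).card : ℝ) ≤ M := by
      have h3 := card_filter_le (Icc 5 M) (fun k : ℕ => (k : ℝ) ≤ (M : ℝ) ^ (1 / 2 - η))
      rw [Nat.card_Icc] at h3
      have h4 : ((Icc 5 M).filter (fun k : ℕ => (k : ℝ) ≤ (M : ℝ) ^ (1 / 2 - η))).card ≤ M := by
        omega
      exact_mod_cast h4
    have d1 := mul_le_mul_of_nonneg_right c1 (show 0 ≤ D / s by positivity)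
    have d2 := mul_le_mul_of_nonneg_right c2 (show 0 ≤ 1 / (M : ℝ) ^ 2 by positivity)
    have d3 : (M : ℝ) * (1 / (M : ℝ) ^ 2) ≤ 1 / 2 := by
      have : (M : ℝ) * (1 / (M : ℝ) ^ 2) = 1 / M := by
        field_simp
      rw [this]
      exact one_div_le_one_div_of_le (by norm_num) hM2
    have d4 : (L : ℝ) * (D / s) = L * D / s := by ring
    linarith

end Pool.Agent.UMG.A.H50
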